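import Pool.Agent.Lib.MP_651af7_nt.Fc.Main
import Pool.Agent.Lib.MP_651af7_nt.Tb.Sub

/-! The global inequality with the height of the span of the fibre. -/

namespace Pool.Agent.Lib.MP_651af7_nt.Fx

open MvPolynomial Finset Height NumberField Filter Real Module Fc Tb
open IntermediateField (adjoin)
open Rt (Pl av mu)
open Es (vol)
open Ex (lx)

variable {k K κ β : Type} [Field k] [Field K] [Algebra k K] {g : ℕ} {𝓕 : Filter β}
  {v : β → K → k} {J : Ideal (MvPolynomial (Fin g) k)} {y : Fin g → K}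

theorem dt (D : Dat J y) : Dt J y := by
  obtain ⟨A, _, co, a1, -⟩ := id D.ab
  have : Nonempty A := ⟨0⟩
  have h : Bx.Inv _ (J.map (MvPolynomial.map (algebraMap k (AlgebraicClosure k)))) X X :=
    ⟨⟨1, isHomogeneous_X _⟩, fun P hP => by rwa [aeval_X_left_apply], by simpa using a1.exists_X,
      fun i l => by simp [mul_comm]⟩
  exact ⟨⟨D.hom, a1.prime⟩, ⟨g, _, D.ab, _, _, h, h⟩, D.one, D.gen, D.cl⟩

variable [NumberField k] [Fintype κ]

theorem core (D : Dat J y) (h : Sp 𝓕 v) {f : κ → K} (hf : f ≠ 0) {q n : ℕ}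
    {u : Fin q → Fin n → K} (hu : ∀ j, u j ≠ 0) (e : Fin q → ℕ) {δ A : Fin q → ℕ} {b d r : ℕ}
    (hr : 0 < r) {φ : Fin r → K} (hφ : LinearIndependent (adjoin k (Set.range y)) φ)
    {B : Matrix (Fin d → κ) (Fin r) (adjoin k (Set.range y))}
    (hB : ∀ c, ∏ i, f (c i) = ∑ l, B c l • φ l) {c₀ : Fin r → Fin d → κ} (h0 : mne B c₀ ≠ 0)
    (hO : ∀ (O : ValuationSubring K) (e : κ) (c : Fin q → Fin n),
      (∀ z : adjoin k (Set.range y), (z : K) ∈ O) → Max O f e → (∀ j, Max O (u j) (c j)) →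
      ∃ G : Matrix (Fin r) (Fin r) (adjoin k (Set.range y)), G.det ≠ 0 ∧
        (∏ l, (∑ m, G l m • φ m) / f e ^ d) ^ b * ∏ j, (f e ^ δ j / u j (c j)) ^ A j ∈ O)
    {ε : ℝ} (hε : 0 < ε) : ∃ W ∈ 𝓕, ∀ S : Finset (FinitePlace k), ∃ C : ℝ, ∀ p ∈ W,
      ∑ s : Pl S, mu s * ∑ j, A j * log ((⨆ i, av s (v p (y i))) ^ e j *
        (⨆ i, av s (v p (f i))) ^ δ j / ⨆ l, av s (v p (u j l))) +
        b * logHeight (mne (B.map fun z => v p z)) ≤
      (b + ε) * (d * r) * logHeight (fun i => v p (f i)) +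
        ε * logHeight (fun i => v p (y i)) + C := by
  classical
  obtain ⟨τ, _, G, g1, g2⟩ := D.loc h hf hu hφ hO
  obtain ⟨N, hN⟩ : ∃ N : ℝ, N = ∑ j, (A j * e j : ℝ) + 1 := ⟨_, rfl⟩
  have hN0 : 0 < N := by rw [hN]; positivity
  obtain ⟨W₁, w1, b1⟩ := (dt D).sub h hφ B h0 G g1 (ε := ε / 2 / (b + 1)) (by positivity)
  obtain ⟨W₂, w2, b2⟩ := (g2.and (ev_all (fun _ => logHeight_nonneg _) fun i =>
    D.fal (c := fun _ _ => True) h ⟨y i, IntermediateField.subset_adjoin _ _ ⟨i, rfl⟩⟩))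
    (ε / 2 / N) (by positivity)
  have w3 : ∀ c : Fin d → κ, ∀ᶠ p in 𝓕, v p (∑ l, B c l • φ l) = ∏ i, v p (f (c i)) := fun c =>
    hB c ▸ h.prod univ fun i => f (c i)
  have w4 : ∀ x : τ × Fin r, ∀ᶠ p in 𝓕, v p (∑ m, G x.1 x.2 m • φ m) ≠ 0 := fun x =>
    h.ne fun e => g1 x.1
      (Matrix.det_eq_zero_of_row_eq_zero x.2 (Fintype.linearIndependent_iff.1 hφ _ e))
  obtain ⟨o, ho⟩ := Function.ne_iff.1 hf
  refine ⟨_, inter_mem w1 (inter_mem w2 ((h.ne ho).and ((eventually_all.2 w3).and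
    ((h.ne (hφ.ne_zero ⟨0, hr⟩)).and ((D.gn h).ne.and (eventually_all.2 w4)))))), fun S => ?_⟩
  obtain ⟨C₁, b1⟩ := b1 S
  obtain ⟨C₂, b2⟩ := b2 S
  refine ⟨b * C₁ + N * C₂, fun p ⟨p1, p2, p3, p4, p5, p6, p7⟩ => ?_⟩
  obtain ⟨E, e0, e1, e2⟩ := b2 p p2
  choose t ht using fun s => (e2 s _ le_rfl).1
  have c0 : (fun i => v p (f i)) ≠ 0 := Function.ne_iff.2 ⟨o, p3⟩
  have c1 := b1 p p1 t
  have c2 : logHeight (fun c : Fin d → κ => ∏ i, v p (f (c i))) =
      d * logHeight fun i => v p (f i) := by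
    simpa using logHeight_fun_prod_eq (x := fun (_ : Fin d) i => v p (f i)) fun _ => c0
  have c4 : ∀ (w : AbsoluteValue k ℝ) (l : k), l ≠ 0 →
      lx w (fun m => v p (φ m)) l = lx w (fun c : Fin d → κ => ∏ i, v p (f (c i))) l -
        (d * log (⨆ i, w (v p (f i))) - log (⨆ m, w (v p (φ m)))) := fun w l hl => by
    have k1 : ⨆ c : Fin d → κ, w (∏ i, v p (f (c i))) = (⨆ i, w (v p (f i))) ^ d := by
      simpa using iSup_prod_eq_prod_iSup_of_nonnegHomClass w
        (x := fun (_ : Fin d) i => v p (f i))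
    rw [lx, lx, k1, log_div (Es.sup_pos w (x := fun m => v p (φ m))
      (Function.ne_iff.2 ⟨_, p5⟩)).ne' (w.pos hl).ne',
      log_div (pow_pos (Es.sup_pos w c0) _).ne' (w.pos hl).ne', log_pow]
    ring
  have c5 : ∀ s : Pl S, ∑ j, A j * log ((⨆ i, av s (v p (y i))) ^ e j *
      (⨆ i, av s (v p (f i))) ^ δ j / ⨆ l, av s (v p (u j l))) ≤
      b * ∑ l, lx (av s) (fun c : Fin d → κ => ∏ i, v p (f (c i)))
        (v p (∑ m, G (t s) l m • φ m)) + N * E s := fun s => by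
    have k1 := Es.sup_pos (av s) p6
    have k2 : log (⨆ i, av s (v p (y i))) ≤ E s := ((log_le_iff_le_exp k1).2 (Real.iSup_le
      (fun i => by simpa using (e2 s _ le_rfl).2 i trivial) (exp_pos _).le)).trans
        (half_le_self (e0 s))
    have k3 : ∀ j, log ((⨆ i, av s (v p (y i))) ^ e j * (⨆ i, av s (v p (f i))) ^ δ j /
        ⨆ l, av s (v p (u j l))) ≤ e j * E s +
          log ((⨆ i, av s (v p (f i))) ^ δ j / ⨆ l, av s (v p (u j l))) := fun j => by
      by_cases k4 : ⨆ l, av s (v p (u j l)) = 0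
      · simpa [k4] using mul_nonneg (e j).cast_nonneg (e0 s)
      rw [mul_div_assoc, log_mul (pow_pos k1 _).ne'
        (div_ne_zero (pow_pos (Es.sup_pos (av s) c0) _).ne' k4), log_pow]
      exact add_le_add_left (mul_le_mul_of_nonneg_left k2 (Nat.cast_nonneg _)) _
    have k5 := sum_le_sum fun j (_ : j ∈ univ) =>
      mul_le_mul_of_nonneg_left (k3 j) (A j).cast_nonneg
    have k6 := ht s
    simp only [mul_add, sum_add_distrib, ← mul_assoc, ← sum_mul] at k5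
    simp only [fun l => c4 (av s) _ (p7 (t s, l)), sum_sub_distrib, sum_const, card_univ,
      Fintype.card_fin, nsmul_eq_mul] at k6
    rw [hN]
    linarith [e0 s]
  have c3 := sum_le_sum fun s (_ : s ∈ univ) =>
    mul_le_mul_of_nonneg_left (c5 s) ((mu s).cast_nonneg (α := ℝ))
  simp only [mul_add, sum_add_distrib, mul_left_comm (mu _ : ℝ) N, mul_left_comm (mu _ : ℝ) (b : ℝ),
    ← mul_sum] at c3
  simp only [p4, c2, vol] at c1
  beta_reduce at e1
  have c6 := logHeight_nonneg fun i => v p (y i)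
  have c7 := logHeight_nonneg fun i => v p (f i)
  generalize logHeight (fun i => v p (y i)) = H at *
  generalize logHeight (fun i => v p (f i)) = L at *
  have d1 : b * (ε / 2 / (b + 1)) ≤ ε / 2 := by
    rw [← mul_div_assoc, div_le_iff₀ (by positivity)]
    linarith
  have d2 : N * (ε / 2 / N) = ε / 2 := mul_div_cancel₀ _ hN0.ne'
  generalize ε / 2 / (b + 1) = η at *
  have hr' : (1 : ℝ) ≤ r := by exact_mod_cast hr
  have d5 := mul_le_mul_of_nonneg_left c1 (b.cast_nonneg (α := ℝ))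
  have d7 := mul_le_mul_of_nonneg_left e1 hN0.le
  have d11 := mul_le_mul_of_nonneg_right d1 c6
  have d12 := congrArg (· * H) d2
  have d13 := mul_le_mul_of_nonneg_right d1 (show 0 ≤ d * L by positivity)
  have d14 := mul_le_mul_of_nonneg_right hr' (show 0 ≤ ε * d * L by positivity)
  have d16 : 0 ≤ ε * d * L := by positivity
  beta_reduce at d12
  linarith

end Pool.Agent.Lib.MP_651af7_nt.Fx
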