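import Pool.Agent.Lib.MP_651af7_nt.Fc.RV
import Pool.Agent.Lib.MP_651af7_nt.Fc.RVG
import Pool.Agent.Lib.MP_651af7_nt.Am4.GpB

/-! The bound for the Nevanlinna constant in a fixed degree, for a given basis. -/

namespace Pool.Agent.Lib.MP_651af7_nt.Fx

open Module Finset Fc

variable {F K κ : Type} [Field F] [Field K] [Algebra F K] [Fintype κ] {f : κ → K} {q s : ℕ}
  {u : Fin q → Fin s → K} {δ : Fin q → ℕ}

omit [Field F] [Algebra F K] in
theorem word {d : ℕ} {α : κ → ℕ} (h : ∑ i, α i = d) :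
    ∃ c : Fin d → κ, ∏ i, f (c i) = ∏ i, f i ^ α i := by
  classical
  let e : (Σ i, Fin (α i)) ≃ Fin d := Fintype.equivFinOfCardEq (by simpa using h)
  refine ⟨fun i => (e.symm i).1, ?_⟩
  rw [e.symm.prod_comp fun x => f x.1, Fintype.prod_sigma]
  simp

/-- A family of the right size whose span contains the monomials is a basis. -/
theorem basis_of {d r : ℕ} (hr : r = finrank F (mon F f d)) {φ : Fin r → K}
    {B : Matrix (Fin d → κ) (Fin r) F} (hB : ∀ c, ∏ i, f (c i) = ∑ l, B c l • φ l) :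
    LinearIndependent F φ ∧ Submodule.span F (Set.range φ) = mon F f d ∧
      ∃ c : Fin r → Fin d → κ, (B.submatrix c id).det ≠ 0 := by
  classical
  have h1 : mon F f d ≤ Submodule.span F (Set.range φ) := Submodule.span_le.2 (by
    rintro _ ⟨α, h, rfl⟩
    obtain ⟨c, hc⟩ := word (f := f) h
    rw [← hc, hB]
    exact Submodule.sum_mem _ fun l _ => Submodule.smul_mem _ _ (Submodule.subset_span ⟨l, rfl⟩))
  have h2 : finrank F (Submodule.span F (Set.range φ)) ≤ r :=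
    (finrank_range_le_card (R := F) φ).trans_eq (Fintype.card_fin r)
  have : FiniteDimensional F (Submodule.span F (Set.range φ)) :=
    FiniteDimensional.span_of_finite F (Set.finite_range φ)
  have h3 := Submodule.eq_of_le_of_finrank_le h1 (hr ▸ h2)
  refine ⟨linearIndependent_iff_card_eq_finrank_span.2 ?_, h3.symm, ?_⟩
  · rw [Set.finrank, ← h3, Fintype.card_fin, hr]
  obtain ⟨r', α, a1, a2, a3⟩ := mon_basis (F := F) (f := f) d
  obtain rfl : r' = r := by rw [hr, ← a3, finrank_span_eq_card a2, Fintype.card_fin]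
  choose c hc using fun m => word (f := f) (a1 m)
  refine ⟨c, fun e => ?_⟩
  obtain ⟨v, v0, hv⟩ := Matrix.exists_vecMul_eq_zero_iff.2 e
  refine v0 (funext (Fintype.linearIndependent_iff.1 a2 v ?_))
  simp only [← hc, hB, smul_sum, smul_smul]
  rw [sum_comm]
  refine sum_eq_zero fun l _ => ?_
  rw [← sum_smul, show ∑ m, v m * B (c m) l = 0 from congrFun hv l, zero_smul]

theorem disc' {Γ Q : Type} [LinearOrderedCommGroupWithZero Γ] [Fintype Q] (t : Q → Γ)
    (ht : ∀ j, t j ≤ 1) (h0 : ∀ j, t j ≠ 0) (a : Q → ℕ) (N : ℕ) :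
    ∃ (B : ℕ) (w : Q → ℕ) (ρ : Γ), B ≠ 0 ∧ ρ ≤ 1 ∧ ρ ≠ 0 ∧ (∀ j, t j ^ B ≤ ρ ^ w j) ∧
      ρ ^ ((N + 1) * ∑ j, w j * a j) ≤ (∏ j, t j ^ (N * a j)) ^ B := by
  obtain ⟨B, w, ρ, b1, b2, b3, b4⟩ := disc t ht a N
  rcases eq_or_ne ρ 0 with rfl | h
  · have hw : ∀ j, w j = 0 := fun j => by_contra fun e =>
      pow_ne_zero B (h0 j) (le_zero_iff.1 ((b3 j).trans_eq (zero_pow e)))
    exact ⟨B, w, 1, b1, le_rfl, one_ne_zero, by simpa [hw] using b3, by simpa [hw] using b4⟩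
  · exact ⟨B, w, ρ, b1, b2, h, b3, b4⟩

omit [Fintype κ] in
/-- Proper intersection implies general position. -/
theorem genPos_of_proper (hP : Proper F f u δ) : GenPos F f u δ :=
  fun e c h1 h2 φ h3 => Am.gp_of_reg (hP e c h1 h2 φ h3)

theorem nevG (hu : ∀ j l, u j l ∈ mon F f (δ j)) (hP : GenPos F f u δ)
    {a : Fin q → ℕ} {d M r : ℕ} {T : Fin r → K} (a3 : Submodule.span F (Set.range T) = mon F f d)
    (h : ∀ j, a j ≤ ∑ m ∈ range M, finrank F (van F f u δ j d (m + 1))) (N : ℕ)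
    (O : ValuationSubring K) (e : κ) (c : Fin q → Fin s) (o1 : ∀ z : F, algebraMap F K z ∈ O)
    (o2 : Max O f e) (o3 : ∀ j, Max O (u j) (c j)) : ∃ G : Matrix (Fin r) (Fin r) F, G.det ≠ 0 ∧
      (∏ l, (∑ m, G l m • T m) / f e ^ d) ^ (N + 1) *
        ∏ j, (f e ^ δ j / u j (c j)) ^ (N * a j) ∈ O := by
  classical
  let L := Fintype.linearCombination F T
  have l1 : LinearMap.range L = mon F f d := by
    rw [← a3, Fintype.range_linearCombination]
  let ψ : (Fin r → F) →ₗ[F] chart F f u e c :=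
    ((LinearMap.mulRight F (f e ^ d)⁻¹).comp L).codRestrict (chart F f u e c).toSubmodule fun x =>
      by simpa [div_eq_mul_inv] using mon_div (l1 ▸ LinearMap.mem_range_self L x) e c
  have l2 : ∀ x, (ψ x : K) = L x / f e ^ d := fun x => (div_eq_mul_inv _ _).symm
  let φ : Fin q → chart F f u e c := fun j => ⟨_, mon_div (hu j (c j)) e c⟩
  have hO : ∀ z : chart F f u e c, O.valuation z ≤ 1 := fun z => by
    refine (O.valuation_le_one_iff _).2 (Algebra.adjoin_induction ?_ o1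
      (fun _ _ _ _ => add_mem) (fun _ _ _ _ => mul_mem) z.2)
    rintro _ (⟨i, rfl⟩ | ⟨j, l, rfl⟩)
    exacts [o2.2 i, (o3 j).2 l]
  have g7 : ∀ j, O.valuation (φ j) ≠ 0 := fun j =>
    (map_ne_zero _).2 (div_ne_zero (o3 j).1 (pow_ne_zero _ o2.1))
  obtain ⟨B, w, ρ, b1, b2, b0, b3, b4⟩ :=
    disc' (fun j => O.valuation (φ j)) (fun j => hO _) g7 a N
  have : Algebra.FiniteType F (chart F f u e c) := by
    refine (Subalgebra.fg_iff_finiteType _).1 (Subalgebra.fg_def.2 ⟨_, ?_, rfl⟩)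
    refine ((Set.finite_range fun i => f i / f e).union
      (Set.finite_range fun x : Fin q × Fin s => u x.1 x.2 / u x.1 (c x.1))).subset ?_
    rintro _ (⟨i, rfl⟩ | ⟨j, l, rfl⟩)
    exacts [.inl ⟨i, rfl⟩, .inr ⟨(j, l), rfl⟩]
  obtain ⟨G, n, g1, g2, g3⟩ := Am.cI_basis (hP e c o2.1 (fun j => (o3 j).1) φ fun _ => rfl) ψ
    (fun j m => (van F f u δ j d (m + 1)).comap L) (fun j m x hx => by
      have : ∃ g ∈ chart F f u e c, L x / f e ^ d = (u j (c j) / f e ^ δ j) ^ (m + 1) * g := by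
        refine Submodule.span_induction (fun z hz => hz.2 e c o2.1 fun j => (o3 j).1)
          ⟨0, zero_mem _, by simp⟩ ?_ ?_ (Submodule.mem_comap.1 hx)
        · rintro x y - - ⟨g, k1, k2⟩ ⟨g', k3, k4⟩
          exact ⟨g + g', add_mem k1 k3, by rw [add_div, k2, k4, mul_add]⟩
        · rintro a x - ⟨g, k1, k2⟩
          exact ⟨a • g, Subalgebra.smul_mem _ k1 a, by rw [smul_div_assoc, k2, mul_smul_comm]⟩
      obtain ⟨g, k1, k2⟩ := this
      exact Ideal.mem_span_singleton.2 ⟨⟨g, k1⟩, Subtype.ext ((l2 x).trans k2)⟩) M w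
  have g4 : ∀ l, O.valuation (ψ (G l)) ^ B ≤ ρ ^ n l := fun l => by
    obtain ⟨π, rfl⟩ := O.valuation_surjective ρ
    have k : ∀ (z : K) (m : ℕ), z ^ B / π ^ m ∈ O ↔ O.valuation z ^ B ≤ O.valuation π ^ m :=
      fun z m => by
        rw [← O.valuation_le_one_iff, map_div₀, map_pow, map_pow,
          div_le_one₀ (pow_pos (zero_lt_iff.2 b0) _)]
    exact (k _ _).1 (Am.cI_val (chart F f u e c).val.toRingHom O
      (fun z => (O.valuation_le_one_iff _).1 (hO z)) ((map_ne_zero _).1 b0)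
      ((O.valuation_le_one_iff _).1 b2) b1 (fun i _ => (k _ _).2 (b3 i)) (g2 l))
  have g5 : ∑ j, w j * a j ≤ ∑ l, n l := by
    refine le_trans (sum_le_sum fun j _ => ?_) g3
    refine Nat.mul_le_mul_left _ ((h j).trans (sum_le_sum fun m _ => ?_))
    have k : van F f u δ j d (m + 1) ≤ LinearMap.range L :=
      l1 ▸ Submodule.span_le.2 fun z hz => hz.1
    conv_lhs => rw [← Submodule.map_comap_eq_self k]
    exact Submodule.finrank_map_le _ _
  have g6 : O.valuation (∏ l, (ψ (G l) : K)) ^ (N + 1) ≤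
      ∏ j, O.valuation (φ j) ^ (N * a j) := by
    refine (pow_le_pow_iff_left₀ zero_le zero_le b1).1 ?_
    rw [← pow_mul, mul_comm _ B, pow_mul]
    refine le_trans ?_ b4
    rw [map_prod, ← prod_pow]
    refine (pow_le_pow_left' (prod_le_prod' fun l _ => g4 l) _).trans ?_
    rw [prod_pow_eq_pow_sum, ← pow_mul]
    refine pow_le_pow_right_of_le_one' b2 ?_
    rw [mul_comm]
    exact Nat.mul_le_mul_right _ g5
  refine ⟨G, g1, (O.valuation_le_one_iff _).1 ?_⟩
  have g8 : ∀ j, f e ^ δ j / u j (c j) = (φ j : K)⁻¹ := fun j => (inv_div _ _).symm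
  simp only [g8, inv_pow, prod_inv_distrib, map_mul, map_inv₀, map_pow, map_prod]
  rw [mul_inv_le_iff₀ (zero_lt_iff.2 (prod_ne_zero_iff.2 fun j _ => pow_ne_zero _ (g7 j))), one_mul]
  rw [map_prod] at g6
  simpa only [l2, L, Fintype.linearCombination_apply] using g6

theorem nev (hu : ∀ j l, u j l ∈ mon F f (δ j)) (hP : Proper F f u δ)
    {a : Fin q → ℕ} {d M r : ℕ} {T : Fin r → K} (a3 : Submodule.span F (Set.range T) = mon F f d)
    (h : ∀ j, a j ≤ ∑ m ∈ range M, finrank F (van F f u δ j d (m + 1))) (N : ℕ)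
    (O : ValuationSubring K) (e : κ) (c : Fin q → Fin s) (o1 : ∀ z : F, algebraMap F K z ∈ O)
    (o2 : Max O f e) (o3 : ∀ j, Max O (u j) (c j)) : ∃ G : Matrix (Fin r) (Fin r) F, G.det ≠ 0 ∧
      (∏ l, (∑ m, G l m • T m) / f e ^ d) ^ (N + 1) *
        ∏ j, (f e ^ δ j / u j (c j)) ^ (N * a j) ∈ O :=
  nevG hu (genPos_of_proper hP) a3 h N O e c o1 o2 o3

end Pool.Agent.Lib.MP_651af7_nt.Fx
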