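import Pool.Agent.Lib.MP_651af7_nt.Fx.Main

/-! The earlier statement, with the constants `β`, follows from the statement in a fixed degree. -/

namespace Pool.Agent.Lib.MP_651af7_nt.Fx

open Height MvPolynomial NumberField IntermediateField Module Ds Fc

theorem exists_mat {k K : Type} [Field k] [Field K] [Algebra k K] {g n : ℕ} {y : Fin g → K}
    (y1 : ∃ i, y i = 1) (f : Fin n → K) (d : ℕ) :
    ∃ (r : ℕ) (φ : Fin r → K) (B : Matrix (Fin d → Fin n) (Fin r) (MvPolynomial (Fin g) k)),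
      r = finrank (adjoin k (Set.range y)) (mon (adjoin k (Set.range y)) f d) ∧
        ∀ c, ∏ i, f (c i) = ∑ l, aeval y (B c l) * φ l := by
  classical
  obtain ⟨r, α, -, a2, a3⟩ := mon_basis (F := adjoin k (Set.range y)) (f := f) d
  have h1 : ∀ c : Fin d → Fin n, ∃ z : Fin r → adjoin k (Set.range y),
      ∑ l, z l • ∏ i, f i ^ α l i = ∏ i, f (c i) := fun c => by
    rw [← Submodule.mem_span_range_iff_exists_fun, a3]
    refine Submodule.subset_span ⟨fun i => (Finset.univ.filter fun x => c x = i).card, ?_, ?_⟩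
    · simpa using (Finset.card_eq_sum_card_fiberwise (s := Finset.univ) (t := Finset.univ)
        (f := c) fun _ _ => Finset.mem_univ _).symm
    · rw [← Finset.prod_fiberwise Finset.univ c]
      exact Finset.prod_congr rfl fun i _ => (Finset.prod_congr rfl fun x hx => by
        rw [(Finset.mem_filter.1 hx).2]).trans (Finset.prod_const _)
  choose z hz using h1
  obtain ⟨e, A, Q, -, -, q1, q2⟩ := Tb.frac y1 fun x : (Fin d → Fin n) × Fin r => z x.1 x.2
  refine ⟨r, fun l => (∏ i, f i ^ α l i) / aeval y Q, Matrix.of fun c l => A (c, l), ?_,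
    fun c => ?_⟩
  · rw [← a3, finrank_span_eq_card a2, Fintype.card_fin]
  rw [← hz]
  refine Finset.sum_congr rfl fun l _ => ?_
  rw [Matrix.of_apply, q2, mul_assoc, ← mul_div_assoc, mul_div_cancel₀ _ q1]
  rfl

theorem old (k : Type) [Field k] [NumberField k] (g n q s : ℕ)
    (J : Ideal (MvPolynomial (Fin g) k)) (hJ : ∀ P ∈ J, ∀ d, homogeneousComponent d P ∈ J)
    (hA : Abelian (J.map (MvPolynomial.map (algebraMap k (AlgebraicClosure k)))))
    (K : Type) [Field K] [Algebra k K] (y : Fin g → K) (f : Fin n → K)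
    (hy : ∀ (P : MvPolynomial (Fin g) k) (d : ℕ), P.IsHomogeneous d → (aeval y P = 0 ↔ P ∈ J))
    (y1 : ∃ i, y i = 1) (f1 : ∃ i, f i ≠ 0) (F : IntermediateField k K)
    (hF : F = adjoin k (Set.range y)) (hK : adjoin F (Set.range f) = ⊤)
    (hc : ∀ z : K, IsAlgebraic F z → z ∈ F) (U : Fin q → Fin s → MvPolynomial (Fin g ⊕ Fin n) k)
    (hU : ∀ j, ∃ l, aeval (Sum.elim y f) (U j l) ≠ 0) (e δ : Fin q → ℕ)
    (hδ : ∀ j l, aeval (Sum.elim y f) (U j l) ∈ mon F f (δ j))
    (hP : GenPos F f (fun j l => aeval (Sum.elim y f) (U j l)) δ) (ε : ℝ) (hε : 0 < ε) :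
    ∃ Θ : MvPolynomial (Fin g ⊕ Fin n) k, aeval (Sum.elim y f) Θ ≠ 0 ∧
      ∀ S : Finset (FinitePlace k), ∃ C : ℝ, ∀ (x : Fin g → k) (t : Fin n → k),
        (∀ P, aeval (Sum.elim y f) P = 0 → eval (Sum.elim x t) P = 0) →
        eval (Sum.elim x t) Θ ≠ 0 → (∀ j, ∃ l, eval (Sum.elim x t) (U j l) ≠ 0) ∧
        ∑ j, beta F f (fun j l => aeval (Sum.elim y f) (U j l)) δ j *
          (∑ v : InfinitePlace k, v.mult * Real.log ((⨆ i, v (x i)) ^ e j *
            (⨆ i, v (t i)) ^ δ j / ⨆ l, v (eval (Sum.elim x t) (U j l))) +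
          ∑ v ∈ S, Real.log ((⨆ i, v (x i)) ^ e j *
            (⨆ i, v (t i)) ^ δ j / ⨆ l, v (eval (Sum.elim x t) (U j l)))) ≤
        (1 + ε) * logHeight t + ε * logHeight x + C := by
  classical
  obtain ⟨N, hN⟩ := exists_nat_ge (3 / ε + 1)
  have n1 : (1 : ℝ) ≤ N := le_trans (le_add_of_nonneg_left (by positivity)) hN
  have n2 : 3 ≤ ε * N := (div_le_iff₀' hε).1 ((le_add_of_nonneg_right zero_le_one).trans hN)
  obtain ⟨d, M, hd, h2⟩ := beta_approx (F := F) (δ := δ)
    (u := fun j l => aeval (Sum.elim y f) (U j l)) f1 N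
  obtain ⟨r, φ, B, hr, hB⟩ := exists_mat (k := k) y1 f d
  rw [← hF] at hr
  have h6 : (1 : ℝ) ≤ d * r := by exact_mod_cast Nat.mul_pos hd (hr ▸ mon_pos f1 d)
  obtain ⟨D, hD⟩ : ∃ D : Fin q → ℕ, ∀ j, ∑ m ∈ Finset.range M,
    finrank F (van F f (fun j l => aeval (Sum.elim y f) (U j l)) δ j d (m + 1)) = D j :=
    ⟨_, fun _ => rfl⟩
  simp only [hD, ← hr] at h2
  choose Θ w1 w2 using fun T : Finset (Fin q) => sharp k g n q s J hJ hA K y f hy y1 f1 F hF hK hc
    U hU e δ hδ hP d M (fun j => if j ∈ T then D j else 0)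
    (fun j => by rw [hD]; split_ifs <;> simp) r hr φ B hB (1 / N) (by positivity)
  refine ⟨∏ T, Θ T, by simpa [Finset.prod_eq_zero_iff] using w1, fun S => ?_⟩
  choose C w3 using fun T => w2 T S
  refine ⟨2 * ∑ T, |C T|, fun x t p1 p2 => ?_⟩
  rw [map_prod, Finset.prod_ne_zero_iff] at p2
  refine ⟨(w3 ∅ x t p1 (p2 _ (Finset.mem_univ _))).1, ?_⟩
  have h3 := fun T => (w3 T x t p1 (p2 T (Finset.mem_univ _))).2
  have k0 := logHeight_nonneg fun c => ((B.map (eval x)).submatrix c id).det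
  have l0 := logHeight_nonneg t
  have h0 := logHeight_nonneg x
  generalize logHeight (fun c => ((B.map (eval x)).submatrix c id).det) = Δ at *
  generalize logHeight t = L at *
  generalize logHeight x = H at *
  obtain ⟨m, hm⟩ : ∃ m : Fin q → ℝ, ∀ j,
      ∑ v : InfinitePlace k, v.mult * Real.log ((⨆ i, v (x i)) ^ e j *
        (⨆ i, v (t i)) ^ δ j / ⨆ l, v (eval (Sum.elim x t) (U j l))) +
      ∑ v ∈ S, Real.log ((⨆ i, v (x i)) ^ e j *
        (⨆ i, v (t i)) ^ δ j / ⨆ l, v (eval (Sum.elim x t) (U j l))) = m j := ⟨_, fun _ => rfl⟩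
  simp only [hm] at h3 ⊢
  obtain ⟨T, hT⟩ : ∃ T : Finset (Fin q), ∀ j, j ∈ T ↔ 0 ≤ m j :=
    ⟨Finset.univ.filter fun j => 0 ≤ m j, by simp⟩
  have h4 := (le_abs_self _).trans (Finset.single_le_sum (f := fun T => |C T|)
    (fun _ _ => abs_nonneg _) (Finset.mem_univ T))
  have h5 : (0 : ℝ) ≤ ∑ T, |C T| := Finset.sum_nonneg fun _ _ => abs_nonneg _
  generalize (d * r : ℝ) = R at *
  have h7 : N * R * ∑ j, beta F f (fun j l => aeval (Sum.elim y f) (U j l)) δ j * m j ≤
      (N + 1) * ∑ j, ((if j ∈ T then D j else 0 : ℕ) : ℝ) * m j := by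
    rw [Finset.mul_sum, Finset.mul_sum]
    refine Finset.sum_le_sum fun j _ => ?_
    have k := beta_nonneg (F := F) (f := f) (u := fun j l => aeval (Sum.elim y f) (U j l))
      (δ := δ) j
    split_ifs with e
    · have := mul_le_mul_of_nonneg_right (h2 j) ((hT j).1 e)
      linarith
    · have := mul_nonpos_of_nonneg_of_nonpos (mul_nonneg (show 0 ≤ N * R by positivity) k)
        (not_le.1 (mt (hT j).2 e)).le
      push_cast
      linarith
  have h8 := h7.trans (mul_le_mul_of_nonneg_left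
    ((le_add_of_nonneg_right k0).trans (h3 T)) (by positivity))
  generalize ∑ T, |C T| = C' at *
  refine le_of_mul_le_mul_left (h8.trans ?_) (by positivity)
  have k1 : (N + 1 : ℝ) * (1 / N) ≤ 2 := by
    rw [mul_one_div, div_le_iff₀ (by positivity)]
    linarith
  have k2 : (2 : ℝ) ≤ N * R * ε := by nlinarith
  have k3 : (N + 1 : ℝ) ≤ N * R * 2 := by nlinarith
  have k4 := mul_le_mul_of_nonneg_right k1 (show 0 ≤ R * L by positivity)
  have k5 := mul_le_mul_of_nonneg_right (k1.trans k2) h0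
  have k6 := mul_le_mul_of_nonneg_right k3 h5
  have k7 := mul_le_mul_of_nonneg_left h4 (show (0 : ℝ) ≤ N + 1 by positivity)
  have k8 := mul_le_mul_of_nonneg_right n2 (show 0 ≤ R * L by positivity)
  linarith

end Pool.Agent.Lib.MP_651af7_nt.Fx
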